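import Pool.Agent.Lib.MP_e78765_gt.ThmR4
import Pool.Agent.Lib.MP_e78765_gt.TwoPts

/-!
# Mirror-symmetric critical points of the Moebius energy

Let the knot `r` be a critical point of the Moebius energy (or a local minimiser along smooth
variations), and let its image be invariant under the reflection in a plane or under the inversion
in a round sphere, but not contained in this plane or sphere.  Then the image of `r` is a round
circle.  In particular no knot of a nontrivial class which is a critical point of the energy has a
mirror symmetry.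
-/

open MP_e78765_gt

namespace Pool.Agent.Results.MP_e78765_gt.CriticalRigidity

theorem result (r : ℝ → E3) (hr : IsKnot r) (hcrit : IsCritical r ∨ IsLocMin r)
    (hsym : (∃ (n : E3) (c : ℝ), ‖n‖ = 1 ∧ refl n c '' Set.range r = Set.range r ∧
        ¬ Set.range r ⊆ {x | inner ℝ x n = c}) ∨
      ∃ (o : E3) (R : ℝ), 0 < R ∧ invS o R '' Set.range r = Set.range r ∧
        ¬ Set.range r ⊆ {x | ‖x - o‖ = R}) :
    IsRoundCircle (Set.range r) := by
  have hc : IsCritical r := hcrit.elim id (isCritical_of_isLocMin tCrC r hr)
  rcases hsym with ⟨n, c, hn, h1, h2⟩ | ⟨o, R, hR, h1, h2⟩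
  · exact tR4G r n c hn ⟨hr, h1, two_pts_plane r hr n c hn h1 h2⟩ hc
  · exact tR4Sph r o R hR hr hc h1 (two_pts_sphere r hr o R hR h1 h2)

end Pool.Agent.Results.MP_e78765_gt.CriticalRigidity
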