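import Pool.Agent.Lib.MP_e78765_gt.ThmR3
import Pool.Agent.Lib.MP_e78765_gt.Arc
import Pool.Agent.Lib.MP_e78765_gt.Sig
import Pool.Agent.Lib.MP_e78765_gt.Rep
import Pool.Agent.Lib.MP_e78765_gt.Sym
import Pool.Agent.Lib.MP_e78765_gt.Rig
import Pool.Agent.Lib.MP_e78765_gt.Tr
import Pool.Agent.Lib.MP_e78765_gt.MirA
import Pool.Agent.Lib.MP_e78765_gt.TrS
import Pool.Agent.Lib.MP_e78765_gt.Two

/-!
# Minimisation of the Moebius energy among reflection-symmetric knots

Let the image of the knot `r` be invariant under the reflection in a plane, meet this plane in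
exactly two points and be no round circle (a symmetric representative of a class
`K # mirror(K)`).  There is a knot `h`, which is on one side of the plane a knot `g` equivariantly
isotopic to `r` and on the other side half of a round circle (so `h` represents `K`), such that
`energy r > 2 * energy h - 4`, and for every `η > 0` some knot with the same symmetry,
equivariantly isotopic to `r`, has energy `< 2 * energy h - 4 + η`.  So `r` does not minimise the
energy among the symmetric knots equivariantly isotopic to it, and the minimisation of the energy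
among these knots has no solution.
-/

open MP_e78765_gt

namespace Pool.Agent.Results.MP_e78765_gt.SymmetricMinimisation

theorem result (r : ℝ → E3) (n : E3) (c : ℝ) (hn : ‖n‖ = 1) (hr : IsSymKnot n c r)
    (hround : ¬ IsRoundCircle (Set.range r)) :
    ∃ g h : ℝ → E3, IsSymKnot n c g ∧ SymIso (refl n c) r g ∧ IsHalf n c g h ∧
      2 * energy h - 4 < energy r ∧
      ∀ η : ℝ, 0 < η → ∃ r' : ℝ → E3, IsSymKnot n c r' ∧ SymIso (refl n c) r r' ∧
        energy r' < 2 * energy h - 4 + η := by
  have hQB : S_QB := tQB tMu tBd
  have hDS : S_DS := tDS (tDSu (tLoc tBd) tBd) hQB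
  exact fin6 (tArc tSig (tRep hDS hQB tAlg)) (tSym tMir tBd) tRig tTr tTrS (tMirA tMir)
    (tTwo tMir) tR3 r n c hn hr hround

end Pool.Agent.Results.MP_e78765_gt.SymmetricMinimisation
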